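import Pool.Agent.K6.H27.CY.Sub

/-!
# Strong abundance for the classes in invariant subspaces

Let `X'` be a normal projective variety of dimension `n ≥ 1` (a Calabi-Yau manifold, for instance), with
generic point `y'`. Let the vectors `c' P` be the classes of the prime divisors in `N¹(X') = ℤ ^ ρ`. Let
`ℤ ^ r`, `r ≥ 1`, act on `X'` by automorphisms `f_v`, given by the automorphisms `φ v = f_v^*` of
the function field, such that `f_v` has positive entropy (the first dynamical degree is greater than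
`1`) for all `v ≠ 0`. Let `Λ` be the subgroup of `N¹(X')` generated by `r + 1` linearly independent
classes `s j`, such that the pull backs by the `f_v` map `Λ` into itself, and suppose that `Λ ⊗ ℚ`
contains the class of an ample divisor `B` (a class in the interior of the nef cone).

Then every pseudo-effective (in particular, every nef) `ℚ`-divisor `L` on `X'` with class in `Λ ⊗ ℚ` is
numerically trivial or ample, and some multiple `m L`, `m ≥ 1`, is numerically equivalent to a base
point free divisor `D`; if the irregularity of `X'` is zero, then `L` is semiample.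

So the assertion of strong abundance holds for every nef class `L` in `Λ ⊗ ℚ`: if `L = g^* L_B` with
`L_B` ample, then `B` is a point if `L = 0`, and `B = X'` if `L` is ample. If `r + 1 = ρ` these are all
the nef classes on `X'`.
-/

set_option autoImplicit false

open FF Pool.Agent.W602.GT Pool.Agent.Y172 Pool.Agent.R887 Pool.Agent.N110 Pool.Agent.N110.NV
open Pool.Agent.N492.PA Pool.Agent.N110.CC

namespace Pool.Agent.Results.MP_cfacaa_ag.InvariantSubspaces

section

variable {K : Type} [Field K] [Algebra ℂ K] {N n ρ k : ℕ}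

/-- The class of the `ℚ`-divisor `L` in `N¹(X) ⊗ ℝ = ℝ ^ ρ`. -/
noncomputable def classOf (y : Fin (N + 1) → K) (c : Place ℂ K → Fin ρ → ℤ)
    (L : Place ℂ K → ℚ) : Fin ρ → ℝ :=
  fun i => (cls y (fun P j => (c P j : ℚ)) L i : ℝ)

/-- The class of `L` is a rational combination of the classes `s j`. -/
def InSpan (y : Fin (N + 1) → K) (c : Place ℂ K → Fin ρ → ℤ) (s : Fin k → Fin ρ → ℤ)
    (L : Place ℂ K → ℚ) : Prop :=
  ∃ a : Fin k → ℚ, classOf y c L = comb s (fun j => (a j : ℝ))

/-- The support of `L` is finite: `L` is a divisor. -/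
def IsDivisor (y : Fin (N + 1) → K) (L : Place ℂ K → ℚ) : Prop :=
  {P | IsPrimeDivisor y P ∧ L P ≠ 0}.Finite

/-- The `ℚ`-divisor `L` is ample: its class is in the interior of the nef cone. -/
def IsAmple (y : Fin (N + 1) → K) (n : ℕ) (c : Place ℂ K → Fin ρ → ℤ) (L : Place ℂ K → ℚ) : Prop :=
  classOf y c L ∈ interior (nefCone y n c)

theorem inSpan {y : Fin (N + 1) → K} {c : Place ℂ K → Fin ρ → ℤ} {s : Fin k → Fin ρ → ℤ}
    {L : Place ℂ K → ℚ} (h : InSpan y c s L) : Pool.Agent.K6.H27.CY.InSpan y c s L := by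
  obtain ⟨a, ha⟩ := h
  refine ⟨a, fun i => ?_⟩
  have h1 := congrFun ha i
  rw [classOf, comb, Finset.sum_apply] at h1
  simp only [Pi.smul_apply, smul_eq_mul] at h1
  exact_mod_cast h1

end

theorem result {K' : Type} [Field K'] [Algebra ℂ K'] {N' n r ρ : ℕ} {y' : Fin (N' + 1) → K'}
    (hy' : NormalModel y') (hn' : Algebra.trdeg ℂ K' = n) (hn0 : 0 < n) (hr : 0 < r)
    {c' : Place ℂ K' → Fin ρ → ℤ} (hc' : PicardBasis y' c')
    {φ : (Fin r → ℤ) → (K' ≃ₐ[ℂ] K')} (hφ : ∀ u v, φ (u + v) = φ u * φ v)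
    (haut : ∀ v, IsAut (φ v) y') (hent : ∀ v, v ≠ 0 → 1 < dynDegree (φ v) y' n 1)
    {s : Fin (r + 1) → Fin ρ → ℤ} (hli : LinearIndependent ℝ (fun j i => (s j i : ℝ)))
    (hst : ∀ v, PreservesSpan y' c' s (φ v))
    {B : Place ℂ K' → ℚ} (hB : IsDivisor y' B) (hBs : InSpan y' c' s B) (hBa : IsAmple y' n c' B)
    (L : Place ℂ K' → ℚ) (hL : IsDivisor y' L) (hLs : InSpan y' c' s L) (hpsef : PsefD y' L) :
    (classOf y' c' L = 0 ∨ IsAmple y' n c' L) ∧
      (∃ m : ℕ, 1 ≤ m ∧ ∃ D : Place ℂ K' → ℤ, IsFree y' n D ∧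
        classOf y' c' (fun P => m * L P - D P) = 0) ∧
      (IrregularityZero y' → SemiampleD y' n L) := by
  have h1 := Pool.Agent.N618.CC.leafPSCL K' N' ρ y' hy' (cQ c') hc'.numClasses.principal L hL hpsef
  have h2 : cls y' (cQ c') L = 0 ∨ toR (cls y' (cQ c') L) ∈ interior (nefCone y' n c') := by
    by_cases h0 : cls y' (cQ c') L = 0
    · exact Or.inl h0
    · exact Or.inr (Pool.Agent.K6.H27.CY.zero_or_ample hy' hn' hn0 hr hc' hφ haut hent hli hst hB
        (inSpan hBs) hBa (inSpan hLs) h1 h0)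
  have h3 := Pool.Agent.K6.H27.CY.semi (n := n) hy' hc' hL h2
  refine ⟨?_, ?_, fun hq => Pool.Agent.K6.H27.CY.semi_q hy' hc' hq hL h3⟩
  · rcases h2 with h0 | h0
    · left
      funext i
      have h4 : cls y' (fun P j => (c' P j : ℚ)) L i = 0 := congrFun h0 i
      rw [classOf, h4]
      simp
    · exact Or.inr h0
  · obtain ⟨m, hm, D, hD, h0⟩ := h3
    refine ⟨m, hm, D, hD, funext fun i => ?_⟩
    have h4 : cls y' (fun P j => (c' P j : ℚ)) (fun P => m * L P - D P) i = 0 := congrFun h0 i
    rw [classOf, h4]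
    simp

end Pool.Agent.Results.MP_cfacaa_ag.InvariantSubspaces
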